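import Pool.Agent.Helper14.AY.GoalsB

/-! # Packet HS AY-RGA: regularity of solutions of the Monge–Ampère equation -/

set_option autoImplicit false

open Complex Metric Set Filter Topology MeasureTheory
open scoped ContDiff ComplexConjugate ComplexOrder Manifold Matrix

namespace Pool.Agent.Helper25.AY

open Pool.Agent.Helper95.Lin Pool.Agent.Helper16.Abund Pool.Agent.Helper92.Orb Pool.Agent.Helper10.SP
  Pool.Agent.Helper95.RK Pool.Agent.Helper57.HS Pool.Agent.Helper14.AY

/-- Packet RGA. -/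
theorem rga (hDQN : S_DQN) (hLRG : S_LRG) (hHCA : S_HCA) (hHCB : S_HCB) : S_RGA := by
  intro n a W X g u ha ha1 hW hX hXH hg hu hLH hpos heq
  obtain ⟨c1, c2, c3, c4, c5, c6, c7, c8, c9⟩ := hHCA (n := n) a W ha ha1.le hW
  obtain ⟨d1, d2, d3⟩ := hHCB (n := n) a W ha ha1.le hW
  have h2 : Hk a W 2 u := (d1 u).2 ⟨hu, hLH⟩
  have hN := hDQN a W X g u ha ha1 hW hX hXH hg h2 hpos heq
  have hu1 : ContDiffOn ℝ 1 u W := hu.of_le (by norm_num)
  have h3 : Hk a W 3 u := ⟨hu1, fun e => (hN e).1⟩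
  have hsum : ∀ (k : ℕ) {ι : Type} (s : Finset ι) (f : ι → Cn n → ℂ), (∀ i ∈ s, Hk a W k (f i)) →
      Hk a W k fun x => ∑ i ∈ s, f i x := by
    intro k ι s f
    classical
    induction s using Finset.induction_on with
    | empty =>
      intro _
      simp only [Finset.sum_empty]
      exact c1 ℂ _ contDiffOn_const k
    | insert i s hi ih =>
      intro hf
      simp only [Finset.sum_insert hi]
      exact c4 ℂ _ _ k (hf i (Finset.mem_insert_self i s))
        (ih fun j hj => hf j (Finset.mem_insert_of_mem hj))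
  have step : ∀ k, Hk a W (k + 1 + 2) u → Hk a W (k + 2 + 2) u := by
    intro k hk
    have hLM := d2 u (k + 1) hk
    have hQ : ∀ i j, Hk a W (k + 1) fun x => (X x + LM u x) i j := fun i j =>
      c4 ℂ (fun x => X x i j) (fun x => LM u x i j) (k + 1) (c1 ℂ _ (hX i j) (k + 1)) (hLM.2 i j)
    have hQc : ∀ i j, ContinuousOn (fun x => (X x + LM u x) i j) W :=
      fun i j => (hQ i j).1.continuousOn
    have hinv := d3 (fun x => X x + LM u x) (k + 1) (fun x hx => (hpos x hx).det_pos.ne') hQc hQ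
    have hF : ∀ e : Cn n, Hk a W (k + 1) fun x => ((fderiv ℝ u x e + fderiv ℝ g x e : ℝ) : ℂ) -
        ∑ i, ∑ j, (X x + LM u x)⁻¹ i j * fderiv ℝ (fun y => X y j i) x e := by
      intro e
      have f1 : Hk a W (k + 1) fun x => fderiv ℝ u x e := c2 ℝ _ (k + 1) (hk.2 e)
      have f2 : Hk a W (k + 1) fun x => fderiv ℝ g x e :=
        c1 ℝ _ ((hg.fderiv_of_isOpen hW (by simp)).clm_apply contDiffOn_const) (k + 1)
      have f3 := c7 ℝ ℂ Complex.ofRealCLM _ (k + 1) (c4 ℝ _ _ (k + 1) f1 f2)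
      have f4 : Hk a W (k + 1) fun x =>
          ∑ i, ∑ j, (X x + LM u x)⁻¹ i j * fderiv ℝ (fun y => X y j i) x e := by
        refine hsum (k + 1) Finset.univ _ fun i _ => hsum (k + 1) Finset.univ _ fun j _ => ?_
        exact c5 _ _ (k + 1) (hinv i j)
          (c1 ℂ _ (((hX j i).fderiv_of_isOpen hW (by simp)).clm_apply contDiffOn_const) (k + 1))
      have f5 := c7 ℂ ℂ (-(ContinuousLinearMap.id ℝ ℂ)) _ (k + 1) f4
      refine c8 ℂ _ _ (k + 1) (fun x _ => ?_) (c4 ℂ _ _ (k + 1) f3 f5)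
      simp only [Complex.ofRealCLM_apply, ContinuousLinearMap.neg_apply, ContinuousLinearMap.id_apply]
      ring
    refine ⟨hu1, fun e => ?_⟩
    exact hLRG a W (fun x => (X x + LM u x)⁻¹) (k + 1) _ _ ha ha1 hW
      (fun x hx => (hpos x hx).inv) hinv (hF e) (hN e).1 (hN e).2
  have hall : ∀ k, Hk a W (k + 1 + 2) u := by
    intro k
    induction k with
    | zero => exact h3
    | succ k ih => exact step k ih
  refine c9 ℝ u fun k => ?_
  rcases k with _ | _ | _ | k
  · exact c2 ℝ u 0 (c2 ℝ u 1 h2)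
  · exact c2 ℝ u 1 h2
  · exact h2
  · exact hall k

end Pool.Agent.Helper25.AY
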